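import Pool.Agent.H.MP_ab3f56_an.E

set_option autoImplicit false

namespace Pool.Agent.Results.MP_ab3f56_an.Yes

open MeasureTheory Filter Topology AddCircle

/-- `E` is `H^1_0` of the circle `ℝ / Tℤ` with normalised Lebesgue measure, `J f` being a function
that represents `f`: `J` is a linear isometry of `E` onto the classes of integrable functions whose
Fourier coefficients vanish at all `n ≤ 0`, with the `L^1` norm. -/
def IsH10 (T : ℝ) [Fact (0 < T)] (E : Type) [NormedAddCommGroup E] [NormedSpace ℂ E]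
    (J : E → AddCircle T → ℂ) : Prop :=
  (∀ f, Integrable (J f) haarAddCircle ∧ (∀ n : ℤ, n ≤ 0 → fourierCoeff (J f) n = 0) ∧
    ‖f‖ = ∫ x, ‖J f x‖ ∂haarAddCircle) ∧
  (∀ f g, ∀ᵐ x ∂haarAddCircle, J (f + g) x = J f x + J g x) ∧
  (∀ (c : ℂ) f, ∀ᵐ x ∂haarAddCircle, J (c • f) x = c * J f x) ∧
  ∀ u : AddCircle T → ℂ, Integrable u haarAddCircle → (∀ n : ℤ, n ≤ 0 → fourierCoeff u n = 0) →
    ∃ f, ∀ᵐ x ∂haarAddCircle, J f x = u x

theorem result (T : ℝ) [Fact (0 < T)] :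
    ∃ μ : Measure (AddCircle T), IsProbabilityMeasure μ ∧
      Tendsto (fun n : ℤ => ∫ t, fourier (-n) t ∂μ) cofinite (𝓝 0) ∧
      ∃ (E : Type) (_ : NormedAddCommGroup E) (_ : NormedSpace ℂ E) (J : E → AddCircle T → ℂ),
        IsH10 T E J ∧ ∃ S : E →L[ℂ] E,
          (∀ f, ∀ᵐ x ∂haarAddCircle, J (S f) x = ∫ y, J f (x - y) ∂μ) ∧
          spectrum ℂ S = Metric.closedBall 0 1 := by
  obtain ⟨μ, h1, h2, S, h3, h4⟩ := Pool.Agent.H.MP_ab3f56_an.main T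
  refine ⟨μ, h1, h2, Pool.Agent.H.MP_ab3f56_an.H10 T, inferInstance, inferInstance, fun f => f.1,
    ⟨fun f => ⟨L1.integrable_coeFn _, f.2, L1.norm_eq_integral_norm f.1⟩,
      fun f g => Lp.coeFn_add f.1 g.1, fun c f => Lp.coeFn_smul c f.1, fun u hu h => ?_⟩, S, h3, h4⟩
  exact ⟨⟨hu.toL1 u, fun n hn => by rw [fourierCoeff_congr_ae hu.coeFn_toL1, h n hn]⟩,
    hu.coeFn_toL1⟩

end Pool.Agent.Results.MP_ab3f56_an.Yes
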